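import Pool.Agent.Helper18_X2.Stmts
import Pool.Agent.Helper46_PP.Top

/-!
# AWC, part X2, module TOPC: the master induction for the class
-/

open scoped BigOperators

noncomputable section

namespace Pool.Agent.PP.X2.H90

open Pool.Agent.Helper51_AWC Pool.Agent.Helper79_WRA Pool.Agent.PP Pool.Agent.PP.H46

/-- conjugation on a normal subgroup -/
def conjN {D : Type} [Group D] {D₀ : Subgroup D} (hn : D₀.Normal) (g : D) : D₀ ≃* D₀ where
  toFun x := ⟨g * x * g⁻¹, hn.conj_mem x x.2 g⟩
  invFun x := ⟨g⁻¹ * x * g, by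
    have := hn.conj_mem x x.2 g⁻¹
    rwa [inv_inv] at this⟩
  left_inv x := by apply Subtype.ext; simp [mul_assoc]
  right_inv x := by apply Subtype.ext; simp [mul_assoc]
  map_mul' x y := by apply Subtype.ext; simp [mul_assoc]

theorem opCore_le {ℓ : ℕ} [Fact ℓ.Prime] {H : Type} [Group H] [Finite H] {N N2 : Subgroup H}
    (hO : opCore ℓ N = ⊥) (hN2 : N2.Normal) (hle : N2 ≤ N) : opCore ℓ N2 = ⊥ := by
  obtain ⟨o1, o2, -⟩ := opCore_spec ℓ N2
  have hN : ((opCore ℓ N2).map N2.subtype).Normal := by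
    constructor
    intro x hx g
    obtain ⟨y, hy, rfl⟩ := hx
    have h1 := opCore_equiv ℓ (conjN hN2 g)
    rw [mapE_apply] at h1
    have h2 : conjN hN2 g y ∈ opCore ℓ N2 := by
      rw [← h1]
      exact ⟨y, hy, rfl⟩
    exact ⟨conjN hN2 g y, h2, rfl⟩
  have h3 := (opCore_spec ℓ N).2.2 (((opCore ℓ N2).map N2.subtype).subgroupOf N)
    (hN.subgroupOf N) ((o2.map N2.subtype).comap_of_injective N.subtype N.subtype_injective)
  rw [hO, le_bot_iff, Subgroup.subgroupOf_eq_bot, disjoint_iff] at h3
  have h4 : (opCore ℓ N2).map N2.subtype ≤ N := (Subgroup.map_subtype_le _).trans hle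
  rw [inf_eq_left.2 h4, Subgroup.map_eq_bot_iff_of_injective _ N2.subtype_injective] at h3
  exact h3

theorem topc (hFr : FrStmt) (hDz : Dz2Stmt) (hRcn : RcnStmt) (hTrn : TrnStmt)
    (hYzr : YzrStmt) (hPs1 : Ps1Stmt) (hPs3 : Ps3Stmt) (hGr1 : Gr1Stmt) (hGr2 : Gr2Stmt)
    (hMus : MusStmt) (hAdd : AddStmt) (hBrm : BrmStmt) (hMain : MainStmt)
    (hClb : ClbStmt) (hClq : ClqStmt) (hClp : ClpStmt) (hCls : ClsStmt) (hCln : ClnStmt)
    (hFxc : FxcStmt) (hHyt : HytStmt) (hS1 : S1cStmt) (hR2 : R2cStmt) :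
    MainCStmt := by
  intro ℓ _ F _ hF 𝒜 h𝒜
  classical
  -- strong induction on `mu N`
  have key : ∀ m : ℕ, ∀ (H : Type) [Group H] [Finite H] (N : Subgroup H), N.Normal → mu N = m →
      Cls ℓ 𝒜 N → Hyp ℓ F 𝒜 H → YH ℓ F N := by
    intro m
    induction m using Nat.strong_induction_on with
    | _ m ihm =>
    have hlt : YltC ℓ F 𝒜 m := fun H _ _ N hN hm hg hh => ihm (mu N) hm H N hN rfl hg hh
    intro H gH fH N hN hm hg hh
    -- strong induction on `|H|`
    induction hn : Nat.card H using Nat.strong_induction_on generalizing H with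
    | _ n ihn =>
    have hltN : YltC ℓ F 𝒜 (mu N) := by rw [hm]; exact hlt
    have hsubg : ∀ T : Subgroup H, Hyp ℓ F 𝒜 T := fun T => (hHyt ℓ F 𝒜 H hh).1 T T.subtype (by
      rw [(MonoidHom.ker_eq_bot_iff _).2 T.subtype_injective]
      exact bot_le)
    intro e0 he0 hp0
    apply hAdd ℓ F hF H N hN e0 he0
    intro e he hee
    have hp : Pos ℓ e N := pos_mono he.1 (by rw [mulF_comm he.1.1, hee]) hp0
    have hez : e ≠ 0 := he.2.1
    -- normal `ℓ`-subgroups
    by_cases hO : opCore ℓ N ≠ ⊥
    · exact hYzr ℓ F hF.prime H N hN hO e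
    rw [not_not] at hO
    -- the abelian case
    by_cases hab : ∀ x ∈ N, ∀ y ∈ N, x * y * x⁻¹ * y⁻¹ ∈ Subgroup.center H
    · exact absurd (pos_card hp (hGr1 ℓ H N hN hO hab)) hez
    have hNc : ¬ N ≤ Subgroup.center H := by
      intro h
      apply hab
      intro x hx y hy
      have := Subgroup.mem_center_iff.1 (h hx) y
      have h2 : x * y * x⁻¹ * y⁻¹ = 1 := by rw [← this]; group
      rw [h2]
      exact Subgroup.one_mem _
    obtain ⟨N2, hN2N, hZN2, hCh⟩ := hGr2 H N hN hNc
    have hN2 : N2.Normal := hCh.1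
    have hN2c : ¬ N2 ≤ Subgroup.center H := hCh.2.1
    obtain ⟨mus1, mus2, mus3, mus4⟩ := hMus H N N2 hN hN2 hN2N hZN2 hN2c
    obtain ⟨b, hb0, hb, hbe⟩ := exists_blk hez N2
    -- Fong-Reynolds
    by_cases hT : stabF b = ⊤
    swap
    · have hZT : Subgroup.center H ≤ stabF b := by
        intro g hgz x
        have h1 : g * x * g⁻¹ = x := by
          have := Subgroup.mem_center_iff.1 hgz x
          rw [← this]
          group
        rw [h1]
      obtain ⟨-, h2, h3, h4⟩ := hFr ℓ F hF H N2 N hN2 hN hN2N e he hp b hb0 hb hbe (stabF b)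
        (fun g => Iff.rfl)
      rw [h4]
      have hnorm : (N.subgroupOf (stabF b)).Normal := hN.subgroupOf _
      have hmu := mus3 (stabF b) hZT
      have hgood : Cls ℓ 𝒜 (N.subgroupOf (stabF b)) := by
        refine hClb ℓ 𝒜 F H N N2 hN2 hg b hb0 ?_
        intro x hx y hy
        exact hb.1.1 ⟨x, hx⟩ ⟨y, hy⟩
      have h5 : YH ℓ F (N.subgroupOf (stabF b)) := by
        rcases lt_or_eq_of_le hmu with h | h
        · exact hltN _ _ hnorm h hgood (hsubg _)
        · refine ihn (Nat.card (stabF b)) ?_ (stabF b) (N.subgroupOf (stabF b)) hnorm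
            (by rw [h, hm]) hgood (hsubg _) rfl
          rw [← hn]
          have h6 := Subgroup.card_le_card_group (stabF b)
          exact lt_of_le_of_ne h6 fun h7 => hT (Subgroup.eq_top_of_card_eq _ h7)
      rw [h5 _ h2 h3, mul_zero]
    -- the stable case
    have hbc : IsCl b := by
      intro x y
      have : y ∈ stabF b := by rw [hT]; exact Subgroup.mem_top y
      exact this x
    have hebe : mulF e b = e := mul_stable hb0 hb hbc he hbe
    by_cases hd : PrC ℓ (fun t : N2 => b t)
    · by_cases h2 : N2 = N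
      · exfalso
        apply hez
        subst h2
        refine pos_dzb he.1 hp hebe hb0 (fun q _ x => hbc x q) ?_
        intro x hx hdiv
        have := hd.2 ⟨x, hx⟩ (by rw [card_cent]; exact hdiv)
        exact this
      · obtain ⟨D, _, _, W, M', ψ, f, p1, p2, p3, d1, d2, d3, d6, d7, d8, d9, d10⟩ :=
          hDz ℓ F hF H N2 N b e ⟨hN2, hbc, hb0, hb, hd⟩ hN hN2N he.1 hebe hp
        have hmu : mu M' < mu N := by
          have h3 : mu M' ≤ W.relIndex M' := by
            unfold mu
            apply Nat.le_of_dvd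
            · apply Nat.pos_of_ne_zero
              exact Subgroup.index_ne_zero_of_finite
            · exact Subgroup.relIndex_dvd_of_le_left M' d1
          rw [d7] at h3
          exact lt_of_le_of_lt h3 (mus2 h2)
        have hgood : Cls ℓ 𝒜 M' := by
          rw [p3]
          refine hClp ℓ 𝒜 (H ⧸ N2) D ψ _ p1 (by rw [p2]; exact d1) ?_
          exact hClq ℓ 𝒜 H (H ⧸ N2) (QuotientGroup.mk' N2) N (QuotientGroup.mk'_surjective _) hg
        have hhD : Hyp ℓ F 𝒜 D := by
          refine (hHyt ℓ F 𝒜 (H ⧸ N2) ?_).1 D ψ (by rw [p2]; exact d1)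
          exact (hHyt ℓ F 𝒜 H hh).2.1 (H ⧸ N2) (QuotientGroup.mk' N2)
            (QuotientGroup.mk'_surjective _)
        have h5 := hltN D M' d3 hmu hgood hhD f d8 d9
        rw [h5, mul_zero] at d10
        rcases mul_eq_zero.1 d10 with h6 | h6
        · exfalso
          have : Nat.card W ≠ 0 := Nat.card_pos.ne'
          exact this (by exact_mod_cast h6)
        · exact h6
    -- positive over `N2`
    have hpos2 : Pos ℓ e N2 := by
      refine (hPs3 ℓ F hF H N2 hN2 (fun t : N2 => b t) hb ?_ e he.1 ?_).1 ?_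
      · rw [ext0_restr hb0]; exact hT
      · rw [ext0_restr hb0]; exact hebe
      · intro h
        exact hd (prC_of_DZ h hb.1.1)
    by_cases h2 : N2 = N
    · subst h2
      rcases hCln ℓ 𝒜 H N2 hCh hg with hinv | ⟨E, hE1, hE2, hE3, hE4, hE5⟩
      · refine hMain ℓ F hF H N2 hN ?_ e he.1 hp
        intro S _ _ hS hdvd hI
        exact hh S hS hdvd (hinv S hS hdvd hI)
      · by_cases hs : IsSimpleGroup (N2 ⧸ (Subgroup.center H).subgroupOf N2)
        · obtain ⟨S, _, _, hS, hdvd, hAS, hiso⟩ := hE5 hs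
          exact hS1 ℓ F hF 𝒜 h𝒜 S hS hdvd hAS H N2 hN hO hiso hh hltN e he.1 hp
        · refine hR2 ℓ F hF 𝒜 H N2 hCh hO ?_ hs ⟨E, hE1, hE2, hE3, hE4⟩ hh hltN e he hp
            (fun t : N2 => b t) hb ?_ ?_
          · push Not at hab
            exact hab
          · rw [ext0_restr hb0]; exact hT
          · rw [ext0_restr hb0]; exact hebe
    · -- relative chain reduction
      have h3 := hRcn ℓ H N N2 hN hN2 hN2N
        (fun X => (Nat.card X : ℤ) * (lnum X e : ℤ))
      have h4 : YY ℓ N e = ∑ d ∈ chainsOn (psubIn ℓ N) ⊥, (-1) ^ (d.card + 1) *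
          (fun X : Subgroup H => (Nat.card X : ℤ) * (lnum X e : ℤ)) (stab d) := rfl
      rw [h4, h3]
      refine Finset.sum_eq_zero fun c hc => ?_
      rw [Finset.mem_filter] at hc
      obtain ⟨hc1, hc2, hc3⟩ := hc
      have hcm := mem_chainsOn.1 hc1
      have hctop : c ∈ chainsOn (psubIn ℓ (⊤ : Subgroup H)) ⊥ := by
        rw [mem_chainsOn]
        refine ⟨fun D hD => ?_, hcm.2⟩
        rw [mem_psubIn]
        exact ⟨le_top, (mem_psubIn.1 (hcm.1 hD)).2⟩
      rw [hTrn ℓ F hF H N2 hN2 e he.1 c hctop hc2]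
      obtain ⟨t1, t2⟩ := top_mem hc1
      have htp : IsPGroup ℓ (top c) := (mem_psubIn.1 (hcm.1 t1)).2
      have hX1 : Subgroup.centralizer ((top c : Subgroup H) : Set H) ≤ stab c := by
        intro g hgc
        rw [mem_stab]
        intro D hD
        have h5 : g ∈ Subgroup.centralizer ((D : Subgroup H) : Set H) :=
          Subgroup.centralizer_le (t2 D hD) hgc
        rw [← mem_normalizer_iff_conjS]
        · rw [Subgroup.mem_normalizer_iff]
          intro x
          constructor
          · intro hx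
            have := Subgroup.mem_centralizer_iff.1 h5 x hx
            rw [← this, mul_inv_cancel_right]
            exact hx
          · intro hx
            have := Subgroup.mem_centralizer_iff.1 h5 _ hx
            have h7 : x = g * x * g⁻¹ := by
              have h8 : g * x * g⁻¹ * g = g * (g * x * g⁻¹) := this
              rw [inv_mul_cancel_right] at h8
              exact mul_left_cancel h8
            rw [h7]
            exact hx
      have hX2 : stab c ≤ Subgroup.normalizer ((top c : Subgroup H) : Set H) := by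
        unfold stab
        exact iInf₂_le (top c) t1
      have hidem : IsIdem (fun t : stab c => br (top c) e t) :=
        (hBrm ℓ F hF H (top c) (stab c) htp hX1 hX2).2.2 e he.1
      have hposc : Pos ℓ (fun t : stab c => br (top c) e t)
          ((cent N2 c).subgroupOf (stab c)) := by
        rw [cent_eq hc1]
        exact hPs1 ℓ F hF H (top c) N2 htp hN2 (hc3 _ t1) e he.1 hpos2 (stab c) hX1 hX2
      have hnorm : ((cent N2 c).subgroupOf (stab c)).Normal := by
        constructor
        intro x hx g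
        rw [Subgroup.mem_subgroupOf] at hx ⊢
        exact Pool.Agent.Helper79_WRA.H46.conj_mem_cent hN2 g.2 hx
      have hcle : cent N2 c ≤ N2 := inf_le_left
      have hZX : Subgroup.center H ≤ stab c :=
        (Subgroup.center_le_centralizer _).trans hX1
      have hmu : mu ((cent N2 c).subgroupOf (stab c)) < mu N :=
        lt_of_le_of_lt (mus4 (stab c) (cent N2 c) hZX hcle) (mus1 h2)
      have h7 : YY ℓ ((cent N2 c).subgroupOf (stab c)) (fun t : stab c => br (top c) e t) = 0 := by
        have hcl2 : Cls ℓ 𝒜 N2 := hCls ℓ 𝒜 H N N2 hN2 hN2N hg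
        have hO2 : opCore ℓ N2 = ⊥ := opCore_le hO hN2 hN2N
        by_cases hO3 : opCore ℓ ((cent N2 c).subgroupOf (stab c)) ≠ ⊥
        · exact hYzr ℓ F hF.prime (stab c) _ hnorm hO3 _
        · have hcl3 : Cls ℓ 𝒜 ((cent N2 c).subgroupOf (stab c)) := by
            have h8 := hFxc ℓ 𝒜 h𝒜 H N2 hN2 hO2 hcl2 (top c) htp (stab c) hX1 hX2
            rw [← cent_eq hc1] at h8
            exact h8.resolve_left hO3
          exact hltN _ _ hnorm hmu hcl3 (hsubg _) _ hidem hposc
      rw [h7, mul_zero]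
  intro H _ _ N hN hg hh
  exact key (mu N) H N hN rfl hg hh

end Pool.Agent.PP.X2.H90
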